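import Pool.Agent.H302Z.TriProof

set_option autoImplicit false

namespace Pool.Agent.Results.MP_679d83_lc.ACoNPComplete

open Pool.Agent.NPC Pool.Agent.H622R2 Pool.Agent.H302Z.Tri

/-- TRIANGLE (given the adjacency matrix of a finite simple graph, does the graph satisfy the
triangle condition?) is in `coNP` and is `coNP`-hard under polynomial-time many-one reductions. -/
theorem result : InCoNPP (fun M : List (List Bool) => TriangleGraph (matGraph M)) ∧
    CoNPHardP (fun M : List (List Bool) => TriangleGraph (matGraph M)) :=
  ⟨triangle_coNP, hardI_not_triangle.toCoNPHardP⟩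

end Pool.Agent.Results.MP_679d83_lc.ACoNPComplete
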